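import Pool.Agent.H249.TR.Real

/-!
# Multiquadratic fields generated by square roots of positive integers are totally real
-/

set_option autoImplicit false

open NumberField ComplexConjugate

namespace Pool.Agent.H249.TR

theorem totally_real_abs {F : Type} [Field F] [NumberField F] {n : ℕ} (x : Fin n → F) (d : Fin n → ℤ)
    (hd : ∀ i, 0 < d i) (hx : ∀ i, x i ^ 2 = (d i : F)) (hF : IntermediateField.adjoin ℚ (Set.range x) = ⊤) :
    IsTotallyReal F := by
  let I : IntermediateField ℚ F := { maximalRealSubfield F with
    algebraMap_mem' := fun q => by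
      have : (algebraMap ℚ F q) = ((q : ℚ) : F) := by simp
      rw [this]
      exact SubfieldClass.ratCast_mem (maximalRealSubfield F) q }
  have hI : (⊤ : IntermediateField ℚ F) ≤ I := by
    rw [← hF, IntermediateField.adjoin_le_iff]
    rintro _ ⟨i, rfl⟩
    change x i ∈ maximalRealSubfield F
    rw [mem_maximalRealSubfield_iff]
    intro φ
    refine real_of_sq (hd i) ?_
    rw [← map_pow, hx i, map_intCast]
  refine ⟨fun v => ?_⟩
  rw [← InfinitePlace.mk_embedding v, InfinitePlace.isReal_mk_iff, ComplexEmbedding.isReal_iff]
  ext y
  rw [ComplexEmbedding.conjugate_coe_eq]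
  exact (mem_maximalRealSubfield_iff y).mp (hI (IntermediateField.mem_top (x := y))) v.embedding

end Pool.Agent.H249.TR
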