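import Mathlib

/-!
# Square roots of rational numbers in multiquadratic fields
-/

set_option autoImplicit false

namespace Pool.Agent.H249.TR

open IntermediateField

theorem alg_of_sq {z : ℂ} (h : ∃ r : ℚ, z ^ 2 = (r : ℂ)) : IsAlgebraic ℚ z := by
  obtain ⟨r, hr⟩ := h
  refine IsAlgebraic.of_pow (n := 2) (by norm_num) ?_
  rw [hr]
  exact isAlgebraic_algebraMap (A := ℂ) r

theorem two_terms {z : ℂ} {r : ℚ} (hz : z ^ 2 = (r : ℂ)) (S : Set ℂ) {y : ℂ}
    (hy : y ∈ Algebra.adjoin ℚ (insert z S)) :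
    ∃ a ∈ Algebra.adjoin ℚ S, ∃ b ∈ Algebra.adjoin ℚ S, y = a + b * z := by
  induction hy using Algebra.adjoin_induction with
  | mem x hx =>
    rcases hx with rfl | hx
    · exact ⟨0, zero_mem _, 1, one_mem _, by ring⟩
    · exact ⟨x, Algebra.subset_adjoin hx, 0, zero_mem _, by ring⟩
  | algebraMap q => exact ⟨_, Subalgebra.algebraMap_mem _ q, 0, zero_mem _, by ring⟩
  | add x y _ _ h1 h2 =>
    obtain ⟨a, ha, b, hb, rfl⟩ := h1
    obtain ⟨c, hc, d, hd, rfl⟩ := h2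
    exact ⟨a + c, add_mem ha hc, b + d, add_mem hb hd, by ring⟩
  | mul x y _ _ h1 h2 =>
    obtain ⟨a, ha, b, hb, rfl⟩ := h1
    obtain ⟨c, hc, d, hd, rfl⟩ := h2
    have hr : (r : ℂ) ∈ Algebra.adjoin ℚ S := Subalgebra.algebraMap_mem _ r
    refine ⟨a * c + b * d * r, add_mem (mul_mem ha hc) (mul_mem (mul_mem hb hd) hr), a * d + b * c,
      add_mem (mul_mem ha hd) (mul_mem hb hc), ?_⟩
    rw [← hz]
    ring

theorem mem_adjoin_iff (S : Finset ℂ) (hS : ∀ z ∈ S, ∃ r : ℚ, z ^ 2 = (r : ℂ)) (y : ℂ) :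
    y ∈ adjoin ℚ (S : Set ℂ) ↔ y ∈ Algebra.adjoin ℚ (S : Set ℂ) := by
  rw [← adjoin_toSubalgebra_of_isAlgebraic (fun z hz => alg_of_sq (hS z hz))]
  rfl

/-- a square root of a rational number in a multiquadratic field is a rational multiple of a product of generators -/
theorem kummer (S : Finset ℂ) (hS : ∀ z ∈ S, ∃ r : ℚ, z ^ 2 = (r : ℂ)) : ∀ y ∈ adjoin ℚ (S : Set ℂ),
    (∃ q : ℚ, y ^ 2 = (q : ℂ)) → ∃ T ⊆ S, ∃ c : ℚ, y = c * ∏ z ∈ T, z := by
  classical
  induction S using Finset.induction_on with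
  | empty =>
    intro y hy _
    rw [Finset.coe_empty, adjoin_empty, IntermediateField.mem_bot] at hy
    obtain ⟨c, rfl⟩ := hy
    exact ⟨∅, subset_rfl, c, by simp⟩
  | insert z S hzS ih =>
    have hS' : ∀ z ∈ S, ∃ r : ℚ, z ^ 2 = (r : ℂ) := fun w hw => hS w (Finset.mem_insert_of_mem hw)
    have ih := ih hS'
    obtain ⟨r, hr⟩ := hS z (Finset.mem_insert_self _ _)
    intro y hy hq
    obtain ⟨q, hq⟩ := hq
    rw [mem_adjoin_iff _ hS, Finset.coe_insert] at hy
    obtain ⟨a, ha, b, hb, rfl⟩ := two_terms hr _ hy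
    rw [← mem_adjoin_iff _ hS'] at ha hb
    have low : ∀ y ∈ adjoin ℚ (S : Set ℂ), (∃ q : ℚ, y ^ 2 = (q : ℂ)) →
        ∃ T ⊆ insert z S, ∃ c : ℚ, y = c * ∏ z ∈ T, z := by
      intro y hy hq
      obtain ⟨T, hT, c, hc⟩ := ih y hy hq
      exact ⟨T, hT.trans (Finset.subset_insert _ _), c, hc⟩
    have hqm : ∀ q : ℚ, (q : ℂ) ∈ adjoin ℚ (S : Set ℂ) := fun q => IntermediateField.algebraMap_mem _ q
    by_cases hz : z ∈ adjoin ℚ (S : Set ℂ)
    · exact low _ (add_mem ha (mul_mem hb hz)) ⟨q, hq⟩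
    · have h1 : 2 * a * b * z = q - a ^ 2 - b ^ 2 * r := by rw [← hq, ← hr]; ring
      have h2 : a * b = 0 := by
        by_contra hne
        apply hz
        have h3 : z = (q - a ^ 2 - b ^ 2 * r) / (2 * (a * b)) := by
          rw [eq_div_iff (mul_ne_zero two_ne_zero hne), ← h1]
          ring
        rw [h3]
        have h4 : (2 : ℂ) ∈ adjoin ℚ (S : Set ℂ) := by
          have := hqm 2
          simpa using this
        exact div_mem (sub_mem (sub_mem (hqm q) (pow_mem ha 2)) (mul_mem (pow_mem hb 2) (hqm r)))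
          (mul_mem h4 (mul_mem ha hb))
      rcases mul_eq_zero.mp h2 with rfl | rfl
      · have hz0 : z ≠ 0 := fun h => hz (h ▸ zero_mem _)
        have hr0 : (r : ℂ) ≠ 0 := by rw [← hr]; exact pow_ne_zero _ hz0
        rw [zero_add] at hq ⊢
        obtain ⟨T, hT, c, hc⟩ := ih b hb ⟨q / r, by
          push_cast
          rw [eq_div_iff hr0, ← hq, ← hr]
          ring⟩
        refine ⟨insert z T, Finset.insert_subset_insert _ hT, c, ?_⟩
        rw [Finset.prod_insert (fun h => hzS (hT h)), hc]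
        ring
      · rw [zero_mul, add_zero] at hq ⊢
        exact low _ ha ⟨q, hq⟩

end Pool.Agent.H249.TR
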