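import Mathlib

/-!
# Totally real subfields of `ℂ`
-/

set_option autoImplicit false

open NumberField ComplexConjugate

namespace Pool.Agent.H249.TR

/-- A Galois extension of `ℚ` of odd degree is totally real. -/
theorem odd_real (K : Type*) [Field K] [NumberField K] [IsGalois ℚ K] (h : Odd (Module.finrank ℚ K)) :
    IsTotallyReal K := by
  have h1 : IsUnramifiedAtInfinitePlaces ℚ K := IsUnramifiedAtInfinitePlaces_of_odd_finrank h
  refine ⟨fun v => ?_⟩
  have h2 := h1.isUnramified v
  rw [InfinitePlace.isUnramified_iff] at h2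
  rcases h2 with h2 | h2
  · exact h2
  · exfalso
    exact InfinitePlace.not_isComplex_iff_isReal.mpr (IsTotallyReal.isReal _) h2

/-- A complex number whose square is a positive integer is real. -/
theorem real_of_sq {d : ℤ} (hd : 0 < d) {z : ℂ} (h : z ^ 2 = (d : ℂ)) : conj z = z := by
  have h0 : (0 : ℝ) ≤ (d : ℝ) := by exact_mod_cast hd.le
  have h1 : ((Real.sqrt d : ℝ) : ℂ) ^ 2 = (d : ℂ) := by
    rw [← Complex.ofReal_pow, Real.sq_sqrt h0]
    simp
  rcases sq_eq_sq_iff_eq_or_eq_neg.1 (h.trans h1.symm) with h | h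
  · rw [h, Complex.conj_ofReal]
  · rw [h, map_neg, Complex.conj_ofReal]

/-- The compositum of a totally real subfield of `ℂ` and the square roots of positive integers is totally real. -/
theorem sup_real {n : ℕ} (d : Fin n → ℤ) (hd : ∀ i, 0 < d i) (K F : IntermediateField ℚ ℂ) [NumberField K]
    [NumberField F] [IsTotallyReal K]
    (hF : F = IntermediateField.adjoin ℚ {z : ℂ | ∃ i, z ^ 2 = (d i : ℂ)} ⊔ K) : IsTotallyReal F := by
  have hK : K ≤ F := by rw [hF]; exact le_sup_right
  have hA : IntermediateField.adjoin ℚ {z : ℂ | ∃ i, z ^ 2 = (d i : ℂ)} ≤ F := by rw [hF]; exact le_sup_left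
  have key : ∀ z : ℂ, z ∈ F → ∀ x : F, (x : ℂ) = z → x ∈ maximalRealSubfield F := by
    let S : Subfield ℂ := (maximalRealSubfield F).map F.toSubfield.subtype
    have hS : ∀ z ∈ S, ∀ x : F, (x : ℂ) = z → x ∈ maximalRealSubfield F := by
      rintro z ⟨y, hy, rfl⟩ x hx
      have : x = y := Subtype.ext hx
      rw [this]
      exact hy
    let I : IntermediateField ℚ ℂ := { S with
      algebraMap_mem' := fun q => by
        have : (algebraMap ℚ ℂ q) = ((q : ℚ) : ℂ) := by simp
        rw [this]
        exact SubfieldClass.ratCast_mem S q }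
    have hle : F ≤ I := by
      have h1 : IntermediateField.adjoin ℚ {z : ℂ | ∃ i, z ^ 2 = (d i : ℂ)} ⊔ K ≤ I := by
        refine sup_le ?_ ?_
        · rw [IntermediateField.adjoin_le_iff]
          rintro z ⟨i, hz⟩
          have hzF : z ∈ F := hA (IntermediateField.subset_adjoin _ _ ⟨i, hz⟩)
          refine ⟨⟨z, hzF⟩, ?_, rfl⟩
          change (⟨z, hzF⟩ : F) ∈ maximalRealSubfield F
          rw [mem_maximalRealSubfield_iff]
          intro φ
          refine real_of_sq (hd i) ?_
          rw [← map_pow]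
          have e : (⟨z, hzF⟩ : F) ^ 2 = ((d i : ℤ) : F) := Subtype.ext (by simpa using hz)
          rw [e, map_intCast]
        · intro z hz
          refine ⟨⟨z, hK hz⟩, ?_, rfl⟩
          change (⟨z, hK hz⟩ : F) ∈ maximalRealSubfield F
          rw [mem_maximalRealSubfield_iff]
          intro φ
          have h1 := IsTotallyReal.complexEmbedding_isReal (K := K)
            (φ.comp (IntermediateField.inclusion hK).toRingHom)
          have h2 := RingHom.congr_fun (ComplexEmbedding.isReal_iff.mp h1) ⟨z, hz⟩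
          rw [ComplexEmbedding.conjugate_coe_eq] at h2
          exact h2
      rw [← hF] at h1
      exact h1
    intro z hz x hx
    exact hS z (hle hz) x hx
  refine ⟨fun v => ?_⟩
  rw [← InfinitePlace.mk_embedding v, InfinitePlace.isReal_mk_iff, ComplexEmbedding.isReal_iff]
  ext x
  rw [ComplexEmbedding.conjugate_coe_eq]
  exact (mem_maximalRealSubfield_iff x).mp (key x x.2 x rfl) v.embedding

section

attribute [-instance] DivisionRing.toRatAlgebra

theorem abelian_adjoin (q : ℕ) :
    IsAbelianGalois ℚ (IntermediateField.adjoin ℚ {z : ℂ | ∃ n ∈ ({q} : Set ℕ), n ≠ 0 ∧ z ^ n = 1}) := by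
  have hc := IntermediateField.isCyclotomicExtension_adjoin_of_exists_isPrimitiveRoot ({q} : Set ℕ) ℚ ℂ
    (fun n _ hn => ⟨_, Complex.isPrimitiveRoot_exp n hn⟩)
  exact IsCyclotomicExtension.isAbelianGalois {q} ℚ _

theorem abelian_of_le (q : ℕ) (K : IntermediateField ℚ ℂ)
    (hK : K ≤ IntermediateField.adjoin ℚ {z : ℂ | ∃ n ∈ ({q} : Set ℕ), n ≠ 0 ∧ z ^ n = 1}) :
    IsAbelianGalois ℚ K := by
  have h1 := abelian_adjoin q
  exact IsAbelianGalois.of_algHom (IntermediateField.inclusion hK)

theorem galois_of_le (q : ℕ) (K : IntermediateField ℚ ℂ)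
    (hK : K ≤ IntermediateField.adjoin ℚ {z : ℂ | ∃ n ∈ ({q} : Set ℕ), n ≠ 0 ∧ z ^ n = 1}) :
    IsGalois ℚ K := (abelian_of_le q K hK).toIsGalois

end

theorem set_eq {q : ℕ} (hq : q ≠ 0) :
    {z : ℂ | z ^ q = 1} = {z : ℂ | ∃ n ∈ ({q} : Set ℕ), n ≠ 0 ∧ z ^ n = 1} := by
  ext z
  simp [hq]

/-- The subfields of odd degree of the cyclotomic fields are totally real. -/
theorem cyclotomic_real (q : ℕ) (hq : q ≠ 0) (K : IntermediateField ℚ ℂ) [NumberField K]
    (hK : K ≤ IntermediateField.adjoin ℚ {z : ℂ | z ^ q = 1}) (hodd : Odd (Module.finrank ℚ K)) :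
    IsTotallyReal K := by
  rw [set_eq hq] at hK
  have h3 := galois_of_le q K hK
  have h4 : IsGalois ℚ K := by
    convert h3
    exact Subsingleton.elim _ _
  exact odd_real K hodd

end Pool.Agent.H249.TR
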