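import Pool.Agent.H249.TR.Gal
import Pool.Agent.H249.TR.Real
import Pool.Agent.H249.TR.Kum

/-!
# Subfields of composita inside `ℂ`
-/

set_option autoImplicit false

namespace Pool.Agent.H249.TR

open IntermediateField

theorem galois_sq {k L : Type*} [Field k] [CharZero k] [Field L] [Algebra k L] {n : ℕ} (x : Fin n → L) (d : Fin n → ℤ)
    (hx : ∀ i, x i ^ 2 = algebraMap k L (d i)) (hL : adjoin k (Set.range x) = ⊤) :
    FiniteDimensional k L ∧ IsGalois k L := by
  classical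
  set p : Polynomial k := ∏ i, (Polynomial.X ^ 2 - Polynomial.C ((d i : k))) with hp
  have hfac : ∀ i, Polynomial.map (algebraMap k L)
      (Polynomial.X ^ 2 - Polynomial.C ((d i : k))) =
      (Polynomial.X - Polynomial.C (x i)) * (Polynomial.X - Polynomial.C (-x i)) := by
    intro i
    rw [Polynomial.map_sub, Polynomial.map_pow, Polynomial.map_X, Polynomial.map_C,
      ← hx i, Polynomial.C_neg, Polynomial.C_pow]
    ring
  have hp0 : p ≠ 0 := Finset.prod_ne_zero_iff.2 fun i _ => Polynomial.X_pow_sub_C_ne_zero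
    (by norm_num) _
  have hs : Polynomial.IsSplittingField k L p := by
    rw [isSplittingField_iff_intermediateField]
    constructor
    · rw [hp, Polynomial.map_prod]
      apply Polynomial.Splits.prod
      intro i _
      rw [hfac i]
      exact (Polynomial.Splits.X_sub_C _).mul (Polynomial.Splits.X_sub_C _)
    · rw [eq_top_iff, ← hL, IntermediateField.adjoin_le_iff]
      rintro _ ⟨i, rfl⟩
      apply IntermediateField.subset_adjoin
      rw [Polynomial.mem_rootSet]
      refine ⟨hp0, ?_⟩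
      rw [hp, map_prod]
      apply Finset.prod_eq_zero (Finset.mem_univ i)
      rw [map_sub, map_pow, Polynomial.aeval_X, Polynomial.aeval_C, hx i, sub_self]
  have h1 : FiniteDimensional k L := Polynomial.IsSplittingField.finiteDimensional L p
  have h2 : Normal k L := Normal.of_isSplittingField p
  have h3 : Algebra.IsSeparable k L := Algebra.IsAlgebraic.isSeparable_of_perfectField
  exact ⟨h1, ⟨⟩⟩

/-- the field `ℚ(√d_1, …, √d_n)` -/
noncomputable def mq {n : ℕ} (d : Fin n → ℤ) : IntermediateField ℚ ℂ :=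
  IntermediateField.adjoin ℚ {z : ℂ | ∃ i, z ^ 2 = (d i : ℂ)}

theorem mq_eq {n : ℕ} (d : Fin n → ℤ) (z : Fin n → ℂ) (hz : ∀ i, z i ^ 2 = (d i : ℂ)) :
    mq d = adjoin ℚ (Set.range z) := by
  apply le_antisymm
  · rw [mq, adjoin_le_iff]
    rintro w ⟨i, hw⟩
    have h1 : z i ∈ adjoin ℚ (Set.range z) := subset_adjoin _ _ ⟨i, rfl⟩
    rcases sq_eq_sq_iff_eq_or_eq_neg.mp (hw.trans (hz i).symm) with h | h
    · rw [h]; exact h1
    · rw [h]; exact neg_mem h1
  · rw [adjoin_le_iff]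
    rintro _ ⟨i, rfl⟩
    exact subset_adjoin _ _ ⟨i, hz i⟩

section

attribute [-instance] DivisionRing.toRatAlgebra

theorem subfields_C {n : ℕ} (d : Fin n → ℤ) (K F : IntermediateField ℚ ℂ) [FiniteDimensional ℚ K]
    (hK : IsAbelianGalois ℚ K) (hodd : Odd (Module.finrank ℚ K)) (hF : F ≤ mq d ⊔ K) :
    F = adjoin ℚ {y : ℂ | y ∈ F ∧ y ∈ mq d ∧ ∃ q : ℚ, y ^ 2 = (q : ℂ)} ⊔ (F ⊓ K) := by
  choose z hz using fun i : Fin n => IsAlgClosed.exists_pow_nat_eq (d i : ℂ) (n := 2) (by norm_num)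
  have hM := mq_eq d z hz
  set N : IntermediateField ℚ ℂ := mq d ⊔ K with hN
  have hzM : ∀ i, z i ∈ mq d := fun i => by rw [hM]; exact subset_adjoin _ _ ⟨i, rfl⟩
  have hzN : ∀ i, z i ∈ N := fun i => (le_sup_left : mq d ≤ N) (hzM i)
  -- `mq d` is Galois
  have hMg : FiniteDimensional ℚ (mq d) ∧ IsGalois ℚ (mq d) := by
    refine galois_sq (fun i => (⟨z i, hzM i⟩ : mq d)) d (fun i => Subtype.ext ?_) ?_
    · change z i ^ 2 = algebraMap ℚ ℂ (d i)
      rw [hz i]
      simp
    · apply lift_injective (mq d)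
      rw [lift_top, lift, adjoin_map, ← Set.range_comp]
      exact hM.symm
  obtain ⟨hM1, hM2⟩ := hMg
  have hNf : FiniteDimensional ℚ N := IntermediateField.finiteDimensional_sup _ _
  have hKg : IsGalois ℚ K := hK.toIsGalois
  have hNn : Normal ℚ N := IntermediateField.normal_sup ℚ ℂ (mq d) K
  have hNs : Algebra.IsSeparable ℚ N := Algebra.IsAlgebraic.isSeparable_of_perfectField
  have hNg : IsGalois ℚ N := ⟨⟩
  have hKN : K ≤ N := le_sup_right
  let z' : Fin n → N := fun i => ⟨z i, hzN i⟩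
  have hz' : ∀ i, z' i ^ 2 = algebraMap ℚ N (d i) := fun i => Subtype.ext (by
    change z i ^ 2 = algebraMap ℚ ℂ (d i)
    rw [hz i]
    simp)
  have hl : lift (adjoin ℚ (Set.range z')) = mq d := by
    rw [lift, adjoin_map, ← Set.range_comp]
    exact hM.symm
  have hK' : IsAbelianGalois ℚ (restrict hKN) :=
    IsAbelianGalois.of_algHom (restrictAlgEquiv hKN).symm.toAlgHom
  have hKd : Module.finrank ℚ (restrict hKN) = Module.finrank ℚ K :=
    (restrictAlgEquiv hKN).symm.toLinearEquiv.finrank_eq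
  have htop : adjoin ℚ (Set.range z') ⊔ restrict hKN = ⊤ := by
    apply lift_injective N
    rw [lift_top, lift, IntermediateField.map_sup]
    change lift _ ⊔ lift _ = N
    rw [hl, lift_restrict]
  have hmain := subfields z' d hz' (restrict hKN) htop (by rw [hKd]; exact hodd) (restrict hF)
  have h1 := congrArg lift hmain
  rw [lift_restrict] at h1
  have h2 : lift (adjoin ℚ {y : N | y ∈ restrict hF ∧ y ∈ adjoin ℚ (Set.range z') ∧
      ∃ q : ℚ, y ^ 2 = algebraMap ℚ N q} ⊔ (restrict hF ⊓ restrict hKN)) =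
      adjoin ℚ {y : ℂ | y ∈ F ∧ y ∈ mq d ∧ ∃ q : ℚ, y ^ 2 = (q : ℂ)} ⊔ (F ⊓ K) := by
    rw [lift, IntermediateField.map_sup, adjoin_map]
    congr 1
    · congr 1
      ext y
      constructor
      · rintro ⟨w, ⟨h3, h4, q, h5⟩, rfl⟩
        refine ⟨(mem_restrict hF w).mp h3, ?_, q, ?_⟩
        · rw [← hl]
          exact ⟨w, h4, rfl⟩
        · have := congrArg (fun u : N => (u : ℂ)) h5
          exact this
      · rintro ⟨h3, h4, q, h5⟩
        refine ⟨⟨y, hF h3⟩, ⟨(mem_restrict hF ⟨y, hF h3⟩).mpr h3, ?_, q, Subtype.ext h5⟩, rfl⟩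
        rw [← hl] at h4
        obtain ⟨w, hw, hw'⟩ := h4
        have : w = ⟨y, hF h3⟩ := Subtype.ext hw'
        rw [← this]
        exact hw
    · ext y
      constructor
      · rintro ⟨w, ⟨h3, h4⟩, rfl⟩
        exact ⟨(mem_restrict hF w).mp h3, (mem_restrict hKN w).mp h4⟩
      · rintro ⟨h3, h4⟩
        exact ⟨⟨y, hF h3⟩, ⟨(mem_restrict hF ⟨y, hF h3⟩).mpr h3, (mem_restrict hKN ⟨y, hF h3⟩).mpr h4⟩, rfl⟩
  rw [h2] at h1
  exact h1

theorem mq_sub {n : ℕ} (d : Fin n → ℤ) (F : IntermediateField ℚ ℂ) (hF : F ≤ mq d) :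
    F = adjoin ℚ {y : ℂ | y ∈ F ∧ y ∈ mq d ∧ ∃ q : ℚ, y ^ 2 = (q : ℂ)} := by
  have h := subfields_C d ⊥ F inferInstance (by rw [IntermediateField.finrank_bot]; exact odd_one)
    (by rw [sup_bot_eq]; exact hF)
  rwa [inf_bot_eq, sup_bot_eq] at h

end

end Pool.Agent.H249.TR
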