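import Pool.Agent.H249.TR.Ind

/-!
# Families of discriminants and the subfields of the fields which they define
-/

set_option autoImplicit false

namespace Pool.Agent.H249.TR

open IntermediateField

theorem sq_of_mul {x a y : ℤ} (ha : a ≠ 0) (h : x * a ^ 2 = y ^ 2) : ∃ z : ℤ, x = z ^ 2 := by
  have h1 : a ^ 2 ∣ y ^ 2 := ⟨x, by rw [← h]; ring⟩
  rw [Int.pow_dvd_pow_iff (by norm_num)] at h1
  obtain ⟨z, rfl⟩ := h1
  refine ⟨z, ?_⟩
  have h2 : (x - z ^ 2) * a ^ 2 = 0 := by rw [sub_mul, h]; ring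
  rcases mul_eq_zero.mp h2 with h3 | h3
  · linarith
  · exact absurd h3 (pow_ne_zero _ ha)

theorem eq_of_sq {D C a b : ℤ} (hD : Squarefree D) (hC : Squarefree C) (ha : a ≠ 0)
    (h : D * a ^ 2 = C * b ^ 2) : D = C := by
  have hD0 : D ≠ 0 := hD.ne_zero
  obtain ⟨z, hz⟩ := sq_of_mul (x := D * C) (y := C * b) ha (by
    calc D * C * a ^ 2 = C * (D * a ^ 2) := by ring
      _ = (C * b) ^ 2 := by rw [h]; ring)
  have h1 : D ∣ z ^ 2 := ⟨C, by rw [hz]⟩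
  have h2 : D ∣ z := (hD.dvd_pow_iff_dvd (by norm_num)).mp h1
  obtain ⟨t, rfl⟩ := h2
  have h3 : C = D * t ^ 2 := by
    have : D * (C - D * t ^ 2) = 0 := by rw [mul_sub, hz]; ring
    rcases mul_eq_zero.mp this with h4 | h4
    · exact absurd h4 hD0
    · linarith
  have h4 : IsUnit t := hC t ⟨D, by rw [h3]; ring⟩
  rcases Int.isUnit_iff.1 h4 with h5 | h5 <;> rw [h3, h5] <;> ring

theorem prod_prod {n : ℕ} (d : Fin n → ℤ) (h0 : ∀ i, d i ≠ 0) {ι : Type*} (J : Finset ι) (T : ι → Finset (Fin n)) :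
    ∃ (U : Finset (Fin n)) (l : ℤ), l ≠ 0 ∧ ∏ j ∈ J, ∏ i ∈ T j, d i = (∏ i ∈ U, d i) * l ^ 2 := by
  classical
  induction J using Finset.induction_on with
  | empty => exact ⟨∅, 1, one_ne_zero, by simp⟩
  | insert a J ha ih =>
    obtain ⟨U, l, hl, h⟩ := ih
    refine ⟨symmDiff (T a) U, (∏ i ∈ T a ∩ U, d i) * l,
      mul_ne_zero (Finset.prod_ne_zero_iff.mpr fun i _ => h0 i) hl, ?_⟩
    rw [Finset.prod_insert ha, h]
    have e1 : ∏ i ∈ T a, d i = (∏ i ∈ T a \ U, d i) * ∏ i ∈ T a ∩ U, d i := by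
      rw [← Finset.prod_inter_mul_prod_sdiff (T a) U, mul_comm]
    have e2 : ∏ i ∈ U, d i = (∏ i ∈ U \ T a, d i) * ∏ i ∈ T a ∩ U, d i := by
      rw [← Finset.prod_inter_mul_prod_sdiff U (T a), mul_comm, Finset.inter_comm]
    have e3 : ∏ i ∈ symmDiff (T a) U, d i = (∏ i ∈ T a \ U, d i) * ∏ i ∈ U \ T a, d i := by
      rw [symmDiff_def, Finset.sup_eq_union, Finset.prod_union]
      exact Finset.disjoint_left.mpr fun x hx hx' =>
        (Finset.mem_sdiff.mp hx').2 (Finset.mem_sdiff.mp hx).1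
    rw [e1, e2, e3]
    ring

/-- The subfields of `ℚ(√d_1, …, √d_n) K`, for a family of discriminants with products in a class. -/
theorem sub_family (A G : ℤ → Prop) (hsf : ∀ D, A D → Squarefree D)
    (hprod : ∀ {n : ℕ} (d : Fin n → ℤ), (∀ i, A (d i)) → ∀ T : Finset (Fin n), ∃ C k : ℤ, A C ∧ k ≠ 0 ∧
      ∏ i ∈ T, d i = C * k ^ 2) {n : ℕ} (d : Fin n → ℤ) (hA : ∀ i, A (d i))
    (hG : ∀ (T : Finset (Fin n)) (D k : ℤ), A D → ∏ i ∈ T, d i = D * k ^ 2 → G D)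
    (K F : IntermediateField ℚ ℂ) [NumberField K] {q : ℕ} (hq : q ≠ 0)
    (hK : K ≤ adjoin ℚ {z : ℂ | z ^ q = 1}) (hodd : Odd (Module.finrank ℚ K)) (hF : F ≤ mq d ⊔ K) :
    ∃ (m : ℕ) (e : Fin m → ℤ), (∀ j, A (e j)) ∧
      (∀ T : Finset (Fin m), T.Nonempty → ¬ IsSquare (∏ j ∈ T, e j)) ∧
      (∀ (T : Finset (Fin m)) (D k : ℤ), A D → ∏ j ∈ T, e j = D * k ^ 2 → G D) ∧
      ((∀ i, 0 < d i) → ∀ j, 0 < e j) ∧ F = mq e ⊔ (F ⊓ K) := by
  have h0 : ∀ i, d i ≠ 0 := fun i => (hsf _ (hA i)).ne_zero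
  obtain ⟨S, hS, hS2⟩ := mqS_eq A d (hprod d hA) F
  obtain ⟨m, e, he1, he2, he3⟩ := independent S fun C hC => (hsf C (hS C hC).1).ne_zero
  refine ⟨m, e, fun j => (hS _ (he1 j)).1, he2, ?_, ?_, ?_⟩
  · intro T D k hD hk
    choose U l hl hU using fun j => (hS _ (he1 j)).2
    obtain ⟨V, l', hl', hV⟩ := prod_prod d h0 T U
    obtain ⟨C, k', hC, hk', hCk⟩ := hprod d hA V
    have h1 : (∏ j ∈ T, e j) * (∏ j ∈ T, l j) ^ 2 = (∏ i ∈ V, d i) * l' ^ 2 := by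
      rw [← hV, ← Finset.prod_pow, ← Finset.prod_mul_distrib]
      exact Finset.prod_congr rfl fun j _ => (hU j).symm
    rw [hk, hCk] at h1
    have hk0 : k ≠ 0 := by
      rintro rfl
      have : ∏ j ∈ T, e j ≠ 0 := Finset.prod_ne_zero_iff.mpr fun j _ => (hsf _ (hS _ (he1 j)).1).ne_zero
      exact this (by rw [hk]; ring)
    have h2 : D = C := eq_of_sq (a := k * ∏ j ∈ T, l j) (b := k' * l') (hsf D hD) (hsf C hC)
      (mul_ne_zero hk0 (Finset.prod_ne_zero_iff.mpr fun j _ => hl j)) (by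
        calc D * (k * ∏ j ∈ T, l j) ^ 2 = D * k ^ 2 * (∏ j ∈ T, l j) ^ 2 := by ring
          _ = C * (k' * l') ^ 2 := by rw [h1]; ring)
    rw [h2]
    exact hG V C k' hC hCk
  · intro hpos j
    obtain ⟨U, l, hl, hU⟩ := (hS _ (he1 j)).2
    have h1 : 0 < ∏ i ∈ U, d i := Finset.prod_pos fun i _ => hpos i
    rw [hU] at h1
    exact (pos_iff_pos_of_mul_pos h1).mpr (by positivity)
  · rw [set_eq hq] at hK
    have h1 := abelian_of_le q K hK
    have h2 : @FiniteDimensional ℚ K _ _ (IntermediateField.algebra' K).toModule := by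
      convert (inferInstance : FiniteDimensional ℚ K)
    have h3 : Odd (@Module.finrank ℚ K _ _ (IntermediateField.algebra' K).toModule) := by
      convert hodd
    have h4 := @subfields_C n d K F h2 h1 h3 hF
    rw [hS2, he3] at h4
    exact h4

end Pool.Agent.H249.TR
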