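import Pool.Agent.H249.TR.Split

/-!
# The Galois group of the compositum of an abelian field of odd degree and a multiquadratic field
-/

set_option autoImplicit false

namespace Pool.Agent.H249.TR

open IntermediateField

section eigen

variable {k N : Type*} [Field k] [CharZero k] [Field N] [Algebra k N] [FiniteDimensional k N] [IsGalois k N]

theorem stable (hc : ∀ σ τ : N ≃ₐ[k] N, σ * τ = τ * σ) (V : IntermediateField k N) {x : N} (hx : x ∈ V)
    (σ : N ≃ₐ[k] N) : σ x ∈ V := by
  rw [← IsGalois.fixedField_fixingSubgroup V] at hx ⊢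
  rw [mem_fixedField_iff] at hx ⊢
  intro τ hτ
  have h := DFunLike.congr_fun (hc τ σ) x
  rw [AlgEquiv.mul_apply, AlgEquiv.mul_apply, hx τ hτ] at h
  exact h

/-- the elements of a field on which the Galois group acts through involutions are sums of square roots of rational
numbers -/
theorem eigen (hc : ∀ σ τ : N ≃ₐ[k] N, σ * τ = τ * σ) (V : IntermediateField k N)
    (h2 : ∀ x ∈ V, ∀ σ : N ≃ₐ[k] N, σ (σ x) = x) :
    ∀ x ∈ V, x ∈ Submodule.span k {y : N | y ∈ V ∧ ∃ q : k, y ^ 2 = algebraMap k N q} := by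
  classical
  have key : ∀ S : Finset (N ≃ₐ[k] N), ∀ x ∈ V,
      x ∈ Submodule.span k {y : N | y ∈ V ∧ ∀ σ ∈ S, σ y = y ∨ σ y = -y} := by
    intro S
    induction S using Finset.induction_on with
    | empty => intro x hx; exact Submodule.subset_span ⟨hx, by simp⟩
    | insert τ S hτ ih =>
      intro x hx
      refine Submodule.span_le.mpr ?_ (ih x hx)
      rintro y ⟨hy, hyS⟩
      have hc' : ∀ (σ : N ≃ₐ[k] N) (w : N), σ (τ w) = τ (σ w) := fun σ w =>
        DFunLike.congr_fun (hc σ τ) w
      have e : y = (1 / 2 : k) • (y + τ y) + (1 / 2 : k) • (y - τ y) := by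
        rw [← smul_add, add_add_sub_cancel, ← two_smul k y, smul_smul]
        norm_num
      have h1 : y + τ y ∈ {y : N | y ∈ V ∧ ∀ σ ∈ insert τ S, σ y = y ∨ σ y = -y} := by
        refine ⟨add_mem hy (stable hc V hy τ), fun σ hσ => ?_⟩
        rcases Finset.mem_insert.mp hσ with rfl | hσ
        · left
          rw [map_add, h2 y hy, add_comm]
        · rcases hyS σ hσ with h | h
          · left
            rw [map_add, hc', h]
          · right
            rw [map_add, hc', h, map_neg, neg_add]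
      have h3 : y - τ y ∈ {y : N | y ∈ V ∧ ∀ σ ∈ insert τ S, σ y = y ∨ σ y = -y} := by
        refine ⟨sub_mem hy (stable hc V hy τ), fun σ hσ => ?_⟩
        rcases Finset.mem_insert.mp hσ with rfl | hσ
        · right
          rw [map_sub, h2 y hy, neg_sub]
        · rcases hyS σ hσ with h | h
          · left
            rw [map_sub, hc', h]
          · right
            rw [map_sub, hc', h, map_neg]
            ring
      rw [e]
      exact add_mem (Submodule.smul_mem _ _ (Submodule.subset_span h1))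
        (Submodule.smul_mem _ _ (Submodule.subset_span h3))
  have : Fintype (N ≃ₐ[k] N) := Fintype.ofFinite _
  intro x hx
  refine Submodule.span_mono ?_ (key Finset.univ x hx)
  rintro y ⟨hy, hyS⟩
  refine ⟨hy, ?_⟩
  obtain ⟨q, hq⟩ := (IsGalois.mem_range_algebraMap_iff_fixed (F := k) (y ^ 2)).2 (fun σ => by
    rw [map_pow]
    rcases hyS σ (Finset.mem_univ _) with h | h
    · rw [h]
    · rw [h, neg_sq])
  exact ⟨q, hq.symm⟩

end eigen

section comp

variable {k N : Type*} [Field k] [CharZero k] [Field N] [Algebra k N] [FiniteDimensional k N] [IsGalois k N] {n : ℕ} (z : Fin n → N) (d : Fin n → ℤ)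
  (hz : ∀ i, z i ^ 2 = algebraMap k N (d i)) (K : IntermediateField k N) [hA : IsAbelianGalois k K]
  (hN : adjoin k (Set.range z) ⊔ K = ⊤)

include hN in
omit [CharZero k] [FiniteDimensional k N] [IsGalois k N] hA in
theorem ext_gen {σ τ : N ≃ₐ[k] N} (h1 : ∀ i, σ (z i) = τ (z i)) (h2 : ∀ x ∈ K, σ x = τ x) : σ = τ := by
  let E : IntermediateField k N := (σ : N →ₐ[k] N).equalizer (τ : N →ₐ[k] N) |>.toIntermediateField
    (fun x hx => by
      change σ x⁻¹ = τ x⁻¹
      have : σ x = τ x := hx
      rw [map_inv₀, map_inv₀, this])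
  have h : (⊤ : IntermediateField k N) ≤ E := by
    rw [← hN]
    refine sup_le ?_ (fun x hx => h2 x hx)
    rw [adjoin_le_iff]
    rintro _ ⟨i, rfl⟩
    exact h1 i
  ext x
  exact h (mem_top : x ∈ (⊤ : IntermediateField k N))

include hz in
omit [CharZero k] [FiniteDimensional k N] [IsGalois k N] in
theorem sign (σ : N ≃ₐ[k] N) (i : Fin n) : σ (z i) = z i ∨ σ (z i) = -z i := by
  have h : σ (z i) ^ 2 = z i ^ 2 := by
    rw [← map_pow, hz i, AlgEquiv.commutes]
  exact sq_eq_sq_iff_eq_or_eq_neg.mp h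

omit [CharZero k] [FiniteDimensional k N] [IsGalois k N] in
theorem comm_K (σ τ : N ≃ₐ[k] N) {x : N} (hx : x ∈ K) : σ (τ x) = τ (σ x) := by
  have h := hA.toIsMulCommutative.is_comm.comm (σ.restrictNormal K) (τ.restrictNormal K)
  have h1 := DFunLike.congr_fun h ⟨x, hx⟩
  rw [AlgEquiv.mul_apply, AlgEquiv.mul_apply] at h1
  have h2 := congrArg (algebraMap K N) h1
  rw [AlgEquiv.restrictNormal_commutes, AlgEquiv.restrictNormal_commutes, AlgEquiv.restrictNormal_commutes,
    AlgEquiv.restrictNormal_commutes] at h2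
  exact h2

omit [CharZero k] [FiniteDimensional k N] [IsGalois k N] in
theorem pow_K [FiniteDimensional k K] (σ : N ≃ₐ[k] N) {x : N} (hx : x ∈ K) : (σ ^ (Module.finrank k K)) x = x := by
  have h1 : (σ.restrictNormal K) ^ (Module.finrank k K) = 1 := by
    rw [← IsGalois.card_aut_eq_finrank k K]
    exact pow_card_eq_one'
  have h2 : (AlgEquiv.restrictNormalHom K (σ ^ (Module.finrank k K)) : K ≃ₐ[k] K) = 1 := by
    rw [map_pow]
    exact h1
  have h3 := AlgEquiv.restrictNormal_commutes (σ ^ (Module.finrank k K)) K ⟨x, hx⟩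
  have h4 : (σ ^ (Module.finrank k K)).restrictNormal K = 1 := h2
  rw [h4] at h3
  exact h3.symm

include hz hN in
omit [CharZero k] [FiniteDimensional k N] [IsGalois k N] in
theorem comm (σ τ : N ≃ₐ[k] N) : σ * τ = τ * σ := by
  refine ext_gen z K hN (fun i => ?_) (fun x hx => comm_K K σ τ hx)
  rw [AlgEquiv.mul_apply, AlgEquiv.mul_apply]
  rcases sign z d hz σ i with h1 | h1 <;> rcases sign z d hz τ i with h2 | h2 <;>
    simp only [h1, h2, map_neg]

include hz hN in
/-- the subfields of the compositum -/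
theorem subfields (hodd : Odd (Module.finrank k K)) (F : IntermediateField k N) :
    F = adjoin k {y : N | y ∈ F ∧ y ∈ adjoin k (Set.range z) ∧ ∃ q : k, y ^ 2 = algebraMap k N q} ⊔ (F ⊓ K) := by
  have hc := comm z d hz K hN
  have hM : ∀ σ ∈ (adjoin k (Set.range z)).fixingSubgroup, σ ^ Module.finrank k K = 1 := by
    intro σ hσ
    refine ext_gen z K hN (fun i => ?_) (fun x hx => by rw [pow_K K σ hx]; rfl)
    have h1 : ∀ j : ℕ, (σ ^ j) (z i) = z i := by
      intro j
      induction j with
      | zero => rfl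
      | succ j ih =>
        rw [pow_succ, AlgEquiv.mul_apply,
          (mem_fixingSubgroup_iff _ σ).mp hσ (z i) (subset_adjoin _ _ ⟨i, rfl⟩), ih]
    rw [h1]
    rfl
  have hK : ∀ σ ∈ K.fixingSubgroup, σ ^ 2 = 1 := by
    intro σ hσ
    refine ext_gen z K hN (fun i => ?_) (fun x hx => ?_)
    · rw [pow_two, AlgEquiv.mul_apply]
      rcases sign z d hz σ i with h1 | h1
      · rw [h1, h1]; rfl
      · rw [h1, map_neg, h1, neg_neg]; rfl
    · have h1 := (mem_fixingSubgroup_iff _ σ).mp hσ x hx
      rw [pow_two, AlgEquiv.mul_apply, h1, h1]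
      rfl
  have h2 : ∀ x ∈ adjoin k (Set.range z), ∀ σ : N ≃ₐ[k] N, σ (σ x) = x := by
    intro x hx σ
    induction hx using IntermediateField.adjoin_induction with
    | mem x h =>
      obtain ⟨i, rfl⟩ := h
      rcases sign z d hz σ i with h1 | h1
      · rw [h1, h1]
      · rw [h1, map_neg, h1, neg_neg]
    | algebraMap q => rw [AlgEquiv.commutes, AlgEquiv.commutes]
    | add x y _ _ h1 h2 => rw [map_add, map_add, h1, h2]
    | inv x _ h1 => rw [map_inv₀, map_inv₀, h1]
    | mul x y _ _ h1 h2 => rw [map_mul, map_mul, h1, h2]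
  apply le_antisymm
  · refine (split hc (adjoin k (Set.range z)) K F _ hodd hM hK).trans (sup_le_sup_right ?_ _)
    intro x hx
    have h3 := eigen hc (F ⊓ adjoin k (Set.range z)) (fun y hy σ => h2 y hy.2 σ) x hx
    have h4 : Submodule.span k {y : N | y ∈ F ⊓ adjoin k (Set.range z) ∧ ∃ q : k, y ^ 2 = algebraMap k N q} ≤
        (adjoin k {y : N | y ∈ F ∧ y ∈ adjoin k (Set.range z) ∧
          ∃ q : k, y ^ 2 = algebraMap k N q}).toSubalgebra.toSubmodule := by
      refine Submodule.span_le.mpr ?_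
      rintro y ⟨⟨h5, h6⟩, h7⟩
      exact subset_adjoin _ _ ⟨h5, h6, h7⟩
    exact h4 h3
  · refine sup_le ?_ inf_le_left
    rw [adjoin_le_iff]
    rintro y ⟨h, -⟩
    exact h

end comp

end Pool.Agent.H249.TR
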