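import Pool.Agent.H249.TR.Cx

/-!
# Subfields of multiquadratic fields
-/

set_option autoImplicit false

namespace Pool.Agent.H249.TR

open IntermediateField

/-- the field generated by the square roots of the elements of `S` -/
noncomputable def mqS (S : Finset ℤ) : IntermediateField ℚ ℂ :=
  IntermediateField.adjoin ℚ {w : ℂ | ∃ C ∈ S, w ^ 2 = (C : ℂ)}

theorem ratCast_mem' (M : IntermediateField ℚ ℂ) (q : ℚ) : (q : ℂ) ∈ M := IntermediateField.algebraMap_mem M q

theorem intCast_mem' (M : IntermediateField ℚ ℂ) (q : ℤ) : (q : ℂ) ∈ M := by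
  have := ratCast_mem' M q
  simpa using this

/-- Every subfield generated by square roots of rational numbers of `mq d` is generated by square roots of elements of
the class `P`. -/
theorem mqS_eq (P : ℤ → Prop) {n : ℕ} (d : Fin n → ℤ)
    (hd : ∀ T : Finset (Fin n), ∃ C k : ℤ, P C ∧ k ≠ 0 ∧ ∏ i ∈ T, d i = C * k ^ 2) (F : IntermediateField ℚ ℂ) :
    ∃ S : Finset ℤ, (∀ C ∈ S, P C ∧ ∃ (T : Finset (Fin n)) (k : ℤ), k ≠ 0 ∧ ∏ i ∈ T, d i = C * k ^ 2) ∧
      adjoin ℚ {y : ℂ | y ∈ F ∧ y ∈ mq d ∧ ∃ q : ℚ, y ^ 2 = (q : ℂ)} = mqS S := by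
  classical
  choose z hz using fun i : Fin n => IsAlgClosed.exists_pow_nat_eq (d i : ℂ) (n := 2) (by norm_num)
  have hM := mq_eq d z hz
  choose C k hC hk hCk using hd
  have hsq : ∀ T : Finset (Fin n), (∏ i ∈ T, z i) ^ 2 = (C T : ℂ) * (k T : ℂ) ^ 2 := by
    intro T
    rw [← Finset.prod_pow]
    calc ∏ i ∈ T, z i ^ 2 = ∏ i ∈ T, ((d i : ℤ) : ℂ) := Finset.prod_congr rfl fun i _ => hz i
      _ = ((∏ i ∈ T, d i : ℤ) : ℂ) := by push_cast; rfl
      _ = _ := by rw [hCk T]; push_cast; rfl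
  have hk' : ∀ T, (k T : ℂ) ≠ 0 := fun T => by exact_mod_cast hk T
  refine ⟨(Finset.univ.filter fun T : Finset (Fin n) => ∏ i ∈ T, z i ∈ F).image C, ?_, ?_⟩
  · intro c hc
    obtain ⟨T, -, rfl⟩ := Finset.mem_image.mp hc
    exact ⟨hC T, T, k T, hk T, hCk T⟩
  · apply le_antisymm
    · rw [adjoin_le_iff]
      rintro y ⟨hyF, hyM, q, hq⟩
      by_cases hy0 : y = 0
      · rw [hy0]; exact zero_mem _
      have hS : ∀ w ∈ Finset.univ.image z, ∃ r : ℚ, w ^ 2 = (r : ℂ) := by
        intro w hw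
        obtain ⟨i, -, rfl⟩ := Finset.mem_image.mp hw
        exact ⟨d i, by rw [hz i]; simp⟩
      have hyM' : y ∈ adjoin ℚ ((Finset.univ.image z : Finset ℂ) : Set ℂ) := by
        rw [Finset.coe_image, Finset.coe_univ, Set.image_univ, ← hM]
        exact hyM
      obtain ⟨T0, hT0, c, hc⟩ := kummer _ hS y hyM' ⟨q, hq⟩
      have hpre : ∀ w : T0, ∃ i, z i = w := fun w => by
        obtain ⟨i, -, h⟩ := Finset.mem_image.mp (hT0 w.2)
        exact ⟨i, h⟩
      choose f hf using hpre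
      have hprod : ∏ i ∈ Finset.univ.image f, z i = ∏ w ∈ T0, w := by
        rw [Finset.prod_image]
        · rw [← Finset.prod_coe_sort T0 (fun w => w)]
          exact Finset.prod_congr rfl fun w _ => hf w
        · intro a _ b _ hab
          apply Subtype.ext
          rw [← hf a, ← hf b, hab]
      set T := Finset.univ.image f with hT
      rw [← hprod] at hc
      have hc0 : (c : ℂ) ≠ 0 := fun h => hy0 (by rw [hc, h, zero_mul])
      have hTF : ∏ i ∈ T, z i ∈ F := by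
        have : ∏ i ∈ T, z i = y / c := by rw [hc, mul_div_cancel_left₀ _ hc0]
        rw [this]
        exact div_mem hyF (ratCast_mem' F c)
      have h1 : (∏ i ∈ T, z i) / k T ∈ mqS ((Finset.univ.filter fun T : Finset (Fin n) => ∏ i ∈ T, z i ∈ F).image C) := by
        apply subset_adjoin
        refine ⟨C T, Finset.mem_image_of_mem C (Finset.mem_filter.mpr ⟨Finset.mem_univ _, hTF⟩), ?_⟩
        rw [div_pow, hsq T, mul_div_cancel_right₀ _ (pow_ne_zero _ (hk' T))]
      have h2 : y = c * (k T * ((∏ i ∈ T, z i) / k T)) := by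
        rw [mul_div_cancel₀ _ (hk' T), hc]
      rw [h2]
      exact mul_mem (ratCast_mem' _ c) (mul_mem (intCast_mem' _ _) h1)
    · rw [mqS, adjoin_le_iff]
      rintro w ⟨c, hc, hw⟩
      obtain ⟨T, hT, rfl⟩ := Finset.mem_image.mp hc
      have hTF := (Finset.mem_filter.mp hT).2
      apply subset_adjoin
      have hzT : (∏ i ∈ T, z i) / k T ∈ F ⊓ mq d := by
        refine ⟨div_mem hTF (intCast_mem' _ _), div_mem (prod_mem fun i _ => ?_) (intCast_mem' _ _)⟩
        rw [hM]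
        exact subset_adjoin _ _ ⟨i, rfl⟩
      have h3 : w ^ 2 = ((∏ i ∈ T, z i) / k T) ^ 2 := by
        rw [div_pow, hsq T, mul_div_cancel_right₀ _ (pow_ne_zero _ (hk' T)), hw]
      have h4 : w ∈ F ⊓ mq d := by
        rcases sq_eq_sq_iff_eq_or_eq_neg.mp h3 with h | h
        · rw [h]; exact hzT
        · rw [h]; exact neg_mem hzT
      exact ⟨h4.1, h4.2, C T, by rw [hw]; simp⟩

/-- A multiquadratic field is generated by independent square roots from the given set. -/
theorem independent (S : Finset ℤ) (h0 : ∀ C ∈ S, C ≠ 0) : ∃ (m : ℕ) (e : Fin m → ℤ), (∀ j, e j ∈ S) ∧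
    (∀ T : Finset (Fin m), T.Nonempty → ¬ IsSquare (∏ j ∈ T, e j)) ∧ mqS S = mq e := by
  classical
  obtain ⟨S', hS1, hmin⟩ := Finset.exists_min_image (S.powerset.filter fun S' => mqS S' = mqS S)
    Finset.card ⟨S, Finset.mem_filter.mpr ⟨Finset.mem_powerset_self S, rfl⟩⟩
  have hS'S := Finset.mem_powerset.mp (Finset.mem_filter.mp hS1).1
  have hS' := (Finset.mem_filter.mp hS1).2
  have hmq : mqS S' = mq (fun j : Fin S'.card => ((S'.equivFin.symm j : S') : ℤ)) := by
    unfold mqS mq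
    congr 1
    ext w
    constructor
    · rintro ⟨C, hC, hw⟩
      exact ⟨S'.equivFin ⟨C, hC⟩, by
        change w ^ 2 = (((S'.equivFin.symm (S'.equivFin ⟨C, hC⟩) : S') : ℤ) : ℂ)
        rw [Equiv.symm_apply_apply]
        exact hw⟩
    · rintro ⟨j, hj⟩
      exact ⟨_, (S'.equivFin.symm j).2, hj⟩
  refine ⟨S'.card, fun j => ((S'.equivFin.symm j : S') : ℤ), fun j => hS'S (S'.equivFin.symm j).2, ?_,
    hS'.symm.trans hmq⟩
  intro T hT ⟨r, hr⟩
  obtain ⟨j0, hj0⟩ := hT
  set e : Fin S'.card → ℤ := fun j => ((S'.equivFin.symm j : S') : ℤ) with he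
  have he0 : ∀ j, e j ≠ 0 := fun j => h0 _ (hS'S (S'.equivFin.symm j).2)
  have hinj : Function.Injective e := fun a b h => S'.equivFin.symm.injective (Subtype.ext h)
  choose w hw using fun j : Fin S'.card => IsAlgClosed.exists_pow_nat_eq (e j : ℂ) (n := 2) (by norm_num)
  have hw0 : ∀ j, w j ≠ 0 := fun j h => by
    have := hw j
    rw [h] at this
    have h2 : (e j : ℂ) ≠ 0 := by exact_mod_cast he0 j
    exact h2 (by rw [← this]; simp)
  -- smaller set
  have hmem : e j0 ∈ S' := (S'.equivFin.symm j0).2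
  have hrem : ∀ j ∈ T.erase j0, w j ∈ mqS (S'.erase (e j0)) := by
    intro j hj
    apply subset_adjoin
    refine ⟨e j, Finset.mem_erase.mpr ⟨fun h => (Finset.mem_erase.mp hj).1 (hinj h), (S'.equivFin.symm j).2⟩, hw j⟩
  have hprod : (∏ j ∈ T, w j) ^ 2 = (r : ℂ) ^ 2 := by
    rw [← Finset.prod_pow]
    calc ∏ j ∈ T, w j ^ 2 = ∏ j ∈ T, ((e j : ℤ) : ℂ) := Finset.prod_congr rfl fun j _ => hw j
      _ = ((∏ j ∈ T, e j : ℤ) : ℂ) := by push_cast; rfl
      _ = _ := by rw [hr]; push_cast; ring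
  have hwj0 : w j0 ∈ mqS (S'.erase (e j0)) := by
    have h1 : w j0 * ∏ j ∈ T.erase j0, w j ∈ mqS (S'.erase (e j0)) := by
      rw [Finset.mul_prod_erase T w hj0]
      rcases sq_eq_sq_iff_eq_or_eq_neg.mp hprod with h | h
      · rw [h]; exact intCast_mem' _ _
      · rw [h]; exact neg_mem (intCast_mem' _ _)
    have h2 : ∏ j ∈ T.erase j0, w j ∈ mqS (S'.erase (e j0)) := prod_mem hrem
    have h3 : ∏ j ∈ T.erase j0, w j ≠ 0 := Finset.prod_ne_zero_iff.mpr fun j _ => hw0 j
    have h4 : w j0 = (w j0 * ∏ j ∈ T.erase j0, w j) / ∏ j ∈ T.erase j0, w j := by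
      rw [mul_div_cancel_right₀ _ h3]
    rw [h4]
    exact div_mem h1 h2
  have heq : mqS (S'.erase (e j0)) = mqS S' := by
    apply le_antisymm
    · apply adjoin.mono
      rintro x ⟨C, hC, hx⟩
      exact ⟨C, Finset.mem_of_mem_erase hC, hx⟩
    · rw [mqS, adjoin_le_iff]
      rintro x ⟨C, hC, hx⟩
      by_cases hCe : C = e j0
      · rw [hCe, ← hw j0] at hx
        rcases sq_eq_sq_iff_eq_or_eq_neg.mp hx with h | h
        · rw [h]; exact hwj0
        · rw [h]; exact neg_mem hwj0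
      · exact subset_adjoin _ _ ⟨C, Finset.mem_erase.mpr ⟨hCe, hC⟩, hx⟩
  have hlt := hmin (S'.erase (e j0)) (Finset.mem_filter.mpr
    ⟨Finset.mem_powerset.mpr ((Finset.erase_subset _ _).trans hS'S), heq.trans hS'⟩)
  have hlt2 : (S'.erase (e j0)).card < S'.card := Finset.card_erase_lt_of_mem hmem
  omega

end Pool.Agent.H249.TR
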