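import Pool.Agent.H249.TR.Sqrt

/-!
# Number fields inside the compositum of the layers of a cyclotomic `ℤ_p`-extension and square roots
-/

set_option autoImplicit false

namespace Pool.Agent.H249.TR

open IntermediateField

section

attribute [-instance] DivisionRing.toRatAlgebra

theorem odd_sup' (K₁ K₂ : IntermediateField ℚ ℂ) [FiniteDimensional ℚ K₁] [FiniteDimensional ℚ K₂]
    (h1 : IsAbelianGalois ℚ K₁) (h2 : IsAbelianGalois ℚ K₂) (o1 : Odd (Module.finrank ℚ K₁))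
    (o2 : Odd (Module.finrank ℚ K₂)) : Odd (Module.finrank ℚ ↥(K₁ ⊔ K₂)) := by
  set N : IntermediateField ℚ ℂ := K₁ ⊔ K₂ with hN
  have g1 : IsGalois ℚ K₁ := h1.toIsGalois
  have g2 : IsGalois ℚ K₂ := h2.toIsGalois
  have hNf : FiniteDimensional ℚ N := IntermediateField.finiteDimensional_sup _ _
  have hNn : Normal ℚ N := IntermediateField.normal_sup ℚ ℂ K₁ K₂
  have hNs : Algebra.IsSeparable ℚ N := Algebra.IsAlgebraic.isSeparable_of_perfectField
  have hNg : IsGalois ℚ N := ⟨⟩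
  have l1 : K₁ ≤ N := le_sup_left
  have l2 : K₂ ≤ N := le_sup_right
  have a1 : IsAbelianGalois ℚ (restrict l1) := IsAbelianGalois.of_algHom (restrictAlgEquiv l1).symm.toAlgHom
  have a2 : IsAbelianGalois ℚ (restrict l2) := IsAbelianGalois.of_algHom (restrictAlgEquiv l2).symm.toAlgHom
  have d1 : Module.finrank ℚ (restrict l1) = Module.finrank ℚ K₁ :=
    (restrictAlgEquiv l1).symm.toLinearEquiv.finrank_eq
  have d2 : Module.finrank ℚ (restrict l2) = Module.finrank ℚ K₂ :=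
    (restrictAlgEquiv l2).symm.toLinearEquiv.finrank_eq
  have htop : restrict l1 ⊔ restrict l2 = ⊤ := by
    apply lift_injective N
    rw [lift_top, lift, IntermediateField.map_sup]
    change lift _ ⊔ lift _ = N
    rw [lift_restrict, lift_restrict]
  have key : ∀ σ : N ≃ₐ[ℚ] N, σ ^ (Module.finrank ℚ K₁ * Module.finrank ℚ K₂) = 1 := by
    intro σ
    have e1 : ∀ x ∈ restrict l1, (σ ^ (Module.finrank ℚ K₁ * Module.finrank ℚ K₂)) x = x := by
      intro x hx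
      have hp : ∀ j : ℕ, ((σ ^ Module.finrank ℚ K₁) ^ j) x = x := by
        intro j
        induction j with
        | zero => rfl
        | succ j ih =>
          have := pow_K (restrict l1) σ hx
          rw [d1] at this
          rw [pow_succ, AlgEquiv.mul_apply, this, ih]
      rw [pow_mul]
      exact hp _
    have e2 : ∀ x ∈ restrict l2, (σ ^ (Module.finrank ℚ K₁ * Module.finrank ℚ K₂)) x = x := by
      intro x hx
      have hp : ∀ j : ℕ, ((σ ^ Module.finrank ℚ K₂) ^ j) x = x := by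
        intro j
        induction j with
        | zero => rfl
        | succ j ih =>
          have := pow_K (restrict l2) σ hx
          rw [d2] at this
          rw [pow_succ, AlgEquiv.mul_apply, this, ih]
      rw [mul_comm, pow_mul]
      exact hp _
    set τ := σ ^ (Module.finrank ℚ K₁ * Module.finrank ℚ K₂) with hτ
    let E : IntermediateField ℚ N := (τ : N →ₐ[ℚ] N).equalizer (AlgHom.id ℚ N) |>.toIntermediateField
      (fun x hx => by
        change τ x⁻¹ = x⁻¹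
        have : τ x = x := hx
        rw [map_inv₀, this])
    have h : (⊤ : IntermediateField ℚ N) ≤ E := by
      rw [← htop]
      exact sup_le (fun x hx => e1 x hx) (fun x hx => e2 x hx)
    ext x
    have := h (mem_top : x ∈ (⊤ : IntermediateField ℚ N))
    exact congrArg Subtype.val this
  by_contra hne
  rw [Nat.not_odd_iff_even, even_iff_two_dvd, ← IsGalois.card_aut_eq_finrank] at hne
  have : Fact (Nat.Prime 2) := ⟨Nat.prime_two⟩
  obtain ⟨σ, hσ⟩ := exists_prime_orderOf_dvd_card' 2 hne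
  have h3 := orderOf_dvd_of_pow_eq_one (key σ)
  rw [hσ] at h3
  exact (Nat.not_even_iff_odd.mpr (o1.mul o2)) (even_iff_two_dvd.mpr h3)

/-- a layer of the cyclotomic `ℤ_q`-extension (`q` odd) -/
def Layer (q : ℕ) (K : IntermediateField ℚ ℂ) : Prop :=
  (∃ m : ℕ, K ≤ adjoin ℚ {z : ℂ | z ^ (q ^ (m + 1)) = 1}) ∧ FiniteDimensional ℚ K ∧ Odd (Module.finrank ℚ K)

theorem layer_bot (q : ℕ) : Layer q ⊥ :=
  ⟨⟨0, bot_le⟩, inferInstance, by rw [IntermediateField.finrank_bot]; exact odd_one⟩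

theorem layer_abelian {q : ℕ} (hq : q ≠ 0) {K : IntermediateField ℚ ℂ} (h : Layer q K) : IsAbelianGalois ℚ K := by
  obtain ⟨⟨m, hm⟩, -, -⟩ := h
  rw [set_eq (pow_ne_zero (m + 1) hq)] at hm
  exact abelian_of_le _ K hm

theorem layer_sup {q : ℕ} (hq : q ≠ 0) {K₁ K₂ : IntermediateField ℚ ℂ} (h1 : Layer q K₁) (h2 : Layer q K₂) :
    Layer q (K₁ ⊔ K₂) := by
  have a1 := layer_abelian hq h1
  have a2 := layer_abelian hq h2
  obtain ⟨⟨m1, hm1⟩, f1, o1⟩ := h1
  obtain ⟨⟨m2, hm2⟩, f2, o2⟩ := h2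
  refine ⟨⟨max m1 m2, sup_le (hm1.trans ?_) (hm2.trans ?_)⟩, IntermediateField.finiteDimensional_sup _ _,
    odd_sup' K₁ K₂ a1 a2 o1 o2⟩
  · refine adjoin.mono ℚ _ _ fun z hz => ?_
    obtain ⟨c, hc⟩ := pow_dvd_pow q (Nat.succ_le_succ (le_max_left m1 m2))
    change z ^ (q ^ (max m1 m2 + 1)) = 1
    have hz' : z ^ (q ^ (m1 + 1)) = 1 := hz
    rw [hc, pow_mul, hz', one_pow]
  · refine adjoin.mono ℚ _ _ fun z hz => ?_
    obtain ⟨c, hc⟩ := pow_dvd_pow q (Nat.succ_le_succ (le_max_right m1 m2))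
    change z ^ (q ^ (max m1 m2 + 1)) = 1
    have hz' : z ^ (q ^ (m2 + 1)) = 1 := hz
    rw [hc, pow_mul, hz', one_pow]

theorem fg_of (F : IntermediateField ℚ ℂ) (h : FiniteDimensional ℚ F) : F.FG :=
  (essFiniteType_iff (F := ℚ) (E := ℂ) (K := F)).mp (ess F h)

theorem inf_fin {q : ℕ} (hq : q ≠ 0) (Cl : ℤ → Prop) (T : Finset ℂ)
    (hT : (T : Set ℂ) ⊆ {z : ℂ | ∃ D : ℤ, Cl D ∧ z ^ 2 = (D : ℂ)} ∪ {z : ℂ | ∃ K, Layer q K ∧ z ∈ K}) :
    ∃ (n : ℕ) (d : Fin n → ℤ) (K : IntermediateField ℚ ℂ), (∀ i, Cl (d i)) ∧ Layer q K ∧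
      (T : Set ℂ) ⊆ ((mq d ⊔ K : IntermediateField ℚ ℂ) : Set ℂ) := by
  classical
  induction T using Finset.induction_on with
  | empty => exact ⟨0, Fin.elim0, ⊥, fun i => i.elim0, layer_bot q, by simp⟩
  | insert z T hz ih =>
    rw [Finset.coe_insert] at hT
    obtain ⟨n, d, K, hd, hK, hTK⟩ := ih ((Set.subset_insert _ _).trans hT)
    rcases hT (Set.mem_insert _ _) with ⟨D, hD, hzD⟩ | ⟨K', hK', hz'⟩
    · have hle : mq d ≤ mq (Fin.cons D d : Fin (n + 1) → ℤ) := by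
        refine adjoin.mono ℚ _ _ ?_
        rintro w ⟨i, hw⟩
        exact ⟨i.succ, by rw [Fin.cons_succ]; exact hw⟩
      refine ⟨n + 1, Fin.cons D d, K, fun i => ?_, hK, ?_⟩
      · refine Fin.cases ?_ (fun j => ?_) i
        · rw [Fin.cons_zero]; exact hD
        · rw [Fin.cons_succ]; exact hd j
      · rw [Finset.coe_insert]
        rintro w (rfl | hw)
        · exact (le_sup_left : mq (Fin.cons D d : Fin (n + 1) → ℤ) ≤ _)
            (subset_adjoin _ _ ⟨0, by rw [Fin.cons_zero]; exact hzD⟩)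
        · exact (sup_le_sup_right hle K) (hTK hw)
    · refine ⟨n, d, K ⊔ K', hd, layer_sup hq hK hK', ?_⟩
      rw [Finset.coe_insert]
      rintro w (rfl | hw)
      · exact (le_sup_right.trans le_sup_right : K' ≤ mq d ⊔ (K ⊔ K')) hz'
      · exact (sup_le_sup_left le_sup_left (mq d)) (hTK hw)

theorem inf_sub' {q : ℕ} (hq : q ≠ 0) (Cl : ℤ → Prop) (F : IntermediateField ℚ ℂ) (hf : FiniteDimensional ℚ F)
    (hF : F ≤ adjoin ℚ ({z : ℂ | ∃ D : ℤ, Cl D ∧ z ^ 2 = (D : ℂ)} ∪ {z : ℂ | ∃ K, Layer q K ∧ z ∈ K})) :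
    ∃ (n : ℕ) (d : Fin n → ℤ) (K : IntermediateField ℚ ℂ), (∀ i, Cl (d i)) ∧ Layer q K ∧ F ≤ mq d ⊔ K := by
  obtain ⟨T, hT, hFT⟩ := fin_gen F (fg_of F hf) _ hF
  obtain ⟨n, d, K, h1, h2, h3⟩ := inf_fin hq Cl T hT
  exact ⟨n, d, K, h1, h2, hFT.trans (adjoin_le_iff.mpr h3)⟩

end

theorem inf_sub {q : ℕ} (hq : q ≠ 0) (Cl : ℤ → Prop) (F : IntermediateField ℚ ℂ) [NumberField F]
    (hF : F ≤ adjoin ℚ ({z : ℂ | ∃ D : ℤ, Cl D ∧ z ^ 2 = (D : ℂ)} ∪
      {z : ℂ | ∃ (m : ℕ) (K : IntermediateField ℚ ℂ), NumberField K ∧ K ≤ adjoin ℚ {z : ℂ | z ^ (q ^ (m + 1)) = 1} ∧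
        Odd (Module.finrank ℚ K) ∧ z ∈ K})) :
    ∃ (n : ℕ) (d : Fin n → ℤ) (m : ℕ) (K : IntermediateField ℚ ℂ), (∀ i, Cl (d i)) ∧ NumberField K ∧
      K ≤ adjoin ℚ {z : ℂ | z ^ (q ^ (m + 1)) = 1} ∧ Odd (Module.finrank ℚ K) ∧ F ≤ mq d ⊔ K := by
  have hf : @FiniteDimensional ℚ F _ _ (IntermediateField.algebra' F).toModule := by
    convert (inferInstance : FiniteDimensional ℚ F)
  obtain ⟨n, d, K, h1, ⟨⟨m, hm⟩, hK, hodd⟩, h3⟩ := inf_sub' hq Cl F hf (hF.trans (adjoin.mono ℚ _ _ (by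
    refine Set.union_subset_union_right _ ?_
    rintro z ⟨m, K, hnf, hK, hodd, hz⟩
    refine ⟨K, ⟨⟨m, hK⟩, ?_, ?_⟩, hz⟩
    · convert (inferInstance : FiniteDimensional ℚ K)
    · convert hodd)))
  have hnf : NumberField K := by
    refine @NumberField.mk _ _ inferInstance ?_
    convert hK
  refine ⟨n, d, m, K, h1, hnf, hm, ?_, h3⟩
  convert hodd

end Pool.Agent.H249.TR
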