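import Pool.Agent.TH841.NF.Hom

/-!
# The two definitions of the Tate-Shafarevich group over `ℚ`
-/

set_option autoImplicit false

attribute [-instance] DivisionRing.toRatAlgebra

namespace Pool.Agent.H249.TR

open WeierstrassCurve
open Pool.Agent.TH841.NF
open Pool.Agent.TH841.SH.D (Pt act Gal Coch IsCoc IsCob LocTriv cob)

variable (E : WeierstrassCurve ℚ)

lemma sc_id : Sc (algebraMap ℚ ℚ) 1 E E :=
  ⟨one_ne_zero, by simp, by simp, by simp, by simp, by simp⟩

lemma fx_refl (g : Gal ℚ) : Fx (RingEquiv.refl (AlgebraicClosure ℚ)) g := fun x => g.commutes x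

lemma cF_refl (g : Gal ℚ) : cF (RingEquiv.refl (AlgebraicClosure ℚ)) g = g := by
  refine AlgEquiv.ext fun x => ?_
  exact cF_apply (RingEquiv.refl (AlgebraicClosure ℚ)) (fx_refl g) x

lemma tr_eq (f : Coch E) (g : Gal ℚ) : tr (sc_id E) (RingEquiv.refl (AlgebraicClosure ℚ)) f g = f g := by
  unfold tr
  rw [cF_refl]
  rcases f g with _ | ⟨x, y, h⟩
  · rfl
  · rw [tm_some]
    refine pt_ext _ _ ?_ ?_
    · change x * 1 ^ 2 = x
      ring
    · change y * 1 ^ 3 = y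
      ring

lemma loc_of {K : Type} [Field K] {iK : Algebra ℚ K} {f : Coch E}
    (h : Emb (sc_id E) (RingEquiv.refl (AlgebraicClosure ℚ)) K f) : LocTriv E K f := by
  intro j
  obtain ⟨P, hP⟩ := h j
  refine ⟨P, fun τ σ hτ => ?_⟩
  have h1 := hP τ σ (fx_refl σ) (AlgHom.ext hτ)
  rw [tr_eq] at h1
  exact h1

lemma sha_of {f : Coch E} (hf : D.IsShaCoc E f) : Pool.Agent.TH841.SH.D.IsShaCoc E f :=
  ⟨hf.1, fun p _ => loc_of E (emb_p (sc_id E) (RingEquiv.refl (AlgebraicClosure ℚ)) hf p),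
    loc_of E (emb_r (sc_id E) (RingEquiv.refl (AlgebraicClosure ℚ)) hf)⟩

theorem sha_zero {n : ℕ} (h : ∀ x : Pool.Agent.TH841.SH.D.Sha E, n • x = 0 → x = 0) :
    ∀ x : D.Sha E, n • x = 0 → x = 0 := by
  intro x hx
  obtain ⟨⟨f, hf⟩, rfl⟩ := QuotientAddGroup.mk_surjective x
  have h1 : n • f ∈ cob E := by
    have := (QuotientAddGroup.eq_zero_iff _).mp ((QuotientAddGroup.mk_nsmul _ _ n).symm.trans hx)
    exact this
  let y : Pool.Agent.TH841.SH.D.Sha E := QuotientAddGroup.mk (⟨f, sha_of E hf⟩ : Pool.Agent.TH841.SH.D.shaCoc E)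
  have hy : n • y = 0 := by
    have : n • y = QuotientAddGroup.mk (n • (⟨f, sha_of E hf⟩ : Pool.Agent.TH841.SH.D.shaCoc E)) :=
      (QuotientAddGroup.mk_nsmul _ _ n).symm
    rw [this]
    exact (QuotientAddGroup.eq_zero_iff _).mpr h1
  have h2 := (QuotientAddGroup.eq_zero_iff _).mp (h y hy)
  exact (QuotientAddGroup.eq_zero_iff _).mpr h2

end Pool.Agent.H249.TR
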