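import Mathlib

/-!
# Subfields of the compositum of a field of odd degree and a multiquadratic field
-/

set_option autoImplicit false

namespace Pool.Agent.H249.TR

open IntermediateField

theorem fix_inf {k N : Type*} [Field k] [Field N] [Algebra k N] [FiniteDimensional k N] [IsGalois k N]
    (F M : IntermediateField k N) : (F ⊓ M).fixingSubgroup = F.fixingSubgroup ⊔ M.fixingSubgroup := by
  have h : fixedField (F.fixingSubgroup ⊔ M.fixingSubgroup) = F ⊓ M := by
    apply le_antisymm
    · refine le_inf ?_ ?_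
      · rw [← IsGalois.fixedField_fixingSubgroup F]
        refine fixedField_antitone ?_
        rw [IsGalois.fixedField_fixingSubgroup F]
        exact le_sup_left
      · rw [← IsGalois.fixedField_fixingSubgroup M]
        refine fixedField_antitone ?_
        rw [IsGalois.fixedField_fixingSubgroup M]
        exact le_sup_right
    · rw [IntermediateField.le_iff_le]
      exact sup_le (fixingSubgroup_antitone inf_le_left) (fixingSubgroup_antitone inf_le_right)
  rw [← h, fixingSubgroup_fixedField]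

/-- `M` and `K` have coprime degrees and abelian compositum: the subfields of the compositum are composita. -/
theorem split {k N : Type*} [Field k] [Field N] [Algebra k N] [FiniteDimensional k N] [IsGalois k N]
    (hc : ∀ σ τ : N ≃ₐ[k] N, σ * τ = τ * σ) (M K F : IntermediateField k N) (m : ℕ)
    (hk : Odd m) (hM : ∀ σ ∈ M.fixingSubgroup, σ ^ m = 1) (hK : ∀ σ ∈ K.fixingSubgroup, σ ^ 2 = 1) :
    F ≤ (F ⊓ M) ⊔ (F ⊓ K) := by
  have key : ((F ⊓ M) ⊔ (F ⊓ K)).fixingSubgroup ≤ F.fixingSubgroup := by
    rw [fixingSubgroup_sup, fix_inf, fix_inf]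
    rintro σ ⟨h1, h2⟩
    let i : CommGroup (N ≃ₐ[k] N) := { (inferInstance : Group (N ≃ₐ[k] N)) with mul_comm := hc }
    obtain ⟨a, ha, t, ht, e1⟩ := Subgroup.mem_sup.mp h1
    obtain ⟨b, hb, c, hcc, e2⟩ := Subgroup.mem_sup.mp h2
    have e3 : c * t⁻¹ = b⁻¹ * a := by
      have e4 : b * c = a * t := e2.trans e1.symm
      calc c * t⁻¹ = b⁻¹ * (b * c) * t⁻¹ := by group
        _ = b⁻¹ * a := by rw [e4]; group
    have h3 : (c * t⁻¹) ^ m ∈ F.fixingSubgroup := by
      rw [e3]
      exact pow_mem (mul_mem (inv_mem hb) ha) m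
    have h4 : (c * t⁻¹) ^ m = c := by
      rw [mul_pow, inv_pow, hM t ht, inv_one, mul_one]
      obtain ⟨j, rfl⟩ := hk
      rw [pow_succ, pow_mul, hK c hcc, one_pow, one_mul]
    rw [h4] at h3
    rw [← e2]
    exact mul_mem hb h3
  calc F ≤ fixedField ((F ⊓ M) ⊔ (F ⊓ K)).fixingSubgroup := (IntermediateField.le_iff_le _ _).mpr key
    _ = (F ⊓ M) ⊔ (F ⊓ K) := IsGalois.fixedField_fixingSubgroup _

end Pool.Agent.H249.TR
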