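import Pool.Agent.H249.TR.Ind

/-!
# The number fields inside the field generated by the square roots of a set of primes
-/

set_option autoImplicit false

namespace Pool.Agent.H249.TR

open IntermediateField

/-- a number field in the field generated by a set is in the field generated by a finite subset -/
theorem fin_gen (F : IntermediateField ℚ ℂ) (hfg : F.FG) (S : Set ℂ) (hF : F ≤ adjoin ℚ S) :
    ∃ T : Finset ℂ, (T : Set ℂ) ⊆ S ∧ F ≤ adjoin ℚ (T : Set ℂ) := by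
  classical
  obtain ⟨G, hG⟩ := hfg
  have h : ∀ x : G, ∃ T : Finset ℂ, (T : Set ℂ) ⊆ S ∧ (x : ℂ) ∈ adjoin ℚ (T : Set ℂ) := fun x => by
    have hx : (x : ℂ) ∈ adjoin ℚ S := hF (by rw [← hG]; exact subset_adjoin _ _ x.2)
    obtain ⟨T, hT, h2⟩ := exists_finset_of_mem_adjoin hx
    exact ⟨T, hT, h2⟩
  choose T hT hTx using h
  refine ⟨Finset.univ.biUnion T, ?_, ?_⟩
  · rintro y hy
    obtain ⟨x, -, hx⟩ := Finset.mem_biUnion.mp (Finset.mem_coe.mp hy)
    exact hT x hx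
  · rw [← hG, adjoin_le_iff]
    intro x hx
    refine adjoin.mono ℚ _ _ ?_ (hTx ⟨x, hx⟩)
    intro y hy
    exact Finset.mem_coe.mpr (Finset.mem_biUnion.mpr ⟨⟨x, hx⟩, Finset.mem_univ _, hy⟩)

section

attribute [-instance] DivisionRing.toRatAlgebra

theorem ess (F : IntermediateField ℚ ℂ) (h : FiniteDimensional ℚ F) : Algebra.EssFiniteType ℚ F := inferInstance

theorem gen_top' (F : IntermediateField ℚ ℂ) {m : ℕ} (e : Fin m → ℤ) (hK : F = mq e) (z : Fin m → ℂ)
    (hz : ∀ j, z j ^ 2 = (e j : ℂ)) (hzF : ∀ j, z j ∈ F) :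
    adjoin ℚ (Set.range fun j => (⟨z j, hzF j⟩ : F)) = ⊤ := by
  apply lift_injective F
  rw [lift_top, lift, adjoin_map, ← Set.range_comp]
  exact (mq_eq e z hz).symm.trans hK.symm

end

theorem gen_top (F : IntermediateField ℚ ℂ) [NumberField F] {m : ℕ} (e : Fin m → ℤ) (hK : F = mq e) (z : Fin m → ℂ)
    (hz : ∀ j, z j ^ 2 = (e j : ℂ)) (hzF : ∀ j, z j ∈ F) :
    adjoin ℚ (Set.range fun j => (⟨z j, hzF j⟩ : F)) = ⊤ := by
  have h := gen_top' F e hK z hz hzF
  have key : ∀ (a b : Algebra ℚ F) (S : Set F), a = b → @adjoin ℚ _ F _ a S = ⊤ → @adjoin ℚ _ F _ b S = ⊤ := by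
    rintro a _ S rfl h
    exact h
  exact key _ _ _ (Subsingleton.elim _ _) h

/-- the number fields contained in the field generated by the square roots of the primes with the property `Q` -/
theorem sub_sqrt (Q : ℕ → Prop) (hQ : ∀ r, Q r → r.Prime) (F : IntermediateField ℚ ℂ) [NumberField F]
    (hF : F ≤ adjoin ℚ {z : ℂ | ∃ r : ℕ, Q r ∧ z ^ 2 = (r : ℂ)}) :
    ∃ (m : ℕ) (e : Fin m → ℕ) (x : Fin m → F), (∀ j, Squarefree (e j) ∧ ∀ p : ℕ, p.Prime → p ∣ e j → Q p) ∧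
      (∀ T : Finset (Fin m), T.Nonempty → ¬ IsSquare (∏ j ∈ T, e j)) ∧ (∀ j, x j ^ 2 = (e j : F)) ∧
      adjoin ℚ (Set.range x) = ⊤ := by
  classical
  have hfg : F.FG := by
    have : @FiniteDimensional ℚ F _ _ (IntermediateField.algebra' F).toModule := by
      convert (inferInstance : FiniteDimensional ℚ F)
    have h2 : @Algebra.EssFiniteType ℚ F _ _ (IntermediateField.algebra' F) := ess F this
    exact (essFiniteType_iff (F := ℚ) (E := ℂ) (K := F)).mp h2
  obtain ⟨G, hG, hFG⟩ := fin_gen F hfg _ hF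
  choose r hr hrz using fun z : G => hG z.2
  -- the finite set of primes
  obtain ⟨n, d, hd, hinj, hle⟩ : ∃ (n : ℕ) (d : Fin n → ℕ), (∀ i, Q (d i)) ∧ Function.Injective d ∧
      F ≤ mq (fun i => (d i : ℤ)) := by
    let R : Finset ℕ := Finset.univ.image r
    refine ⟨R.card, fun i => ((R.equivFin.symm i : R) : ℕ), fun i => ?_, fun a b h =>
      R.equivFin.symm.injective (Subtype.ext h), hFG.trans ?_⟩
    · obtain ⟨z, -, hz⟩ := Finset.mem_image.mp (R.equivFin.symm i).2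
      change Q ((R.equivFin.symm i : R) : ℕ)
      rw [← hz]
      exact hr z
    · rw [adjoin_le_iff]
      intro z hz
      apply subset_adjoin
      refine ⟨R.equivFin ⟨r ⟨z, hz⟩, Finset.mem_image_of_mem r (Finset.mem_univ _)⟩, ?_⟩
      change z ^ 2 = (((R.equivFin.symm (R.equivFin ⟨r ⟨z, hz⟩, _⟩) : R) : ℕ) : ℤ)
      rw [Equiv.symm_apply_apply]
      have := hrz ⟨z, hz⟩
      simpa using this
  let P : ℤ → Prop := fun C => 0 < C ∧ Squarefree C.natAbs ∧ ∀ p : ℕ, p.Prime → p ∣ C.natAbs → Q p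
  have hprod : ∀ T : Finset (Fin n), ∃ C k : ℤ, P C ∧ k ≠ 0 ∧ ∏ i ∈ T, ((d i : ℕ) : ℤ) = C * k ^ 2 := by
    intro T
    have hab : (∏ i ∈ T, ((d i : ℕ) : ℤ)).natAbs = ∏ i ∈ T, d i := by
      rw [← Nat.cast_prod, Int.natAbs_natCast]
    refine ⟨∏ i ∈ T, ((d i : ℕ) : ℤ), 1, ⟨Finset.prod_pos fun i _ => ?_, ?_, ?_⟩, one_ne_zero, by ring⟩
    · exact_mod_cast (hQ _ (hd i)).pos
    · rw [hab]
      refine Finset.squarefree_prod_of_pairwise_isCoprime ?_ ?_
      · intro a _ b _ hab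
        rw [Function.onFun, ← Nat.coprime_iff_isRelPrime, Nat.coprime_primes (hQ _ (hd a)) (hQ _ (hd b))]
        exact fun h => hab (hinj h)
      · intro i _
        exact (hQ _ (hd i)).prime.squarefree
    · intro p hp hdv
      rw [hab] at hdv
      obtain ⟨i, -, hi⟩ := (hp.prime.dvd_finsetProd_iff _).mp hdv
      rw [(Nat.prime_dvd_prime_iff_eq hp (hQ _ (hd i))).mp hi]
      exact hd i
  obtain ⟨S, hS, hS2⟩ := mqS_eq P (fun i => ((d i : ℕ) : ℤ)) hprod F
  obtain ⟨m, e, he1, he2, he3⟩ := independent S fun C hC => (hS C hC).1.1.ne'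
  have hK : F = mq e := by
    rw [← he3, ← hS2]
    exact mq_sub _ F hle
  choose z hz using fun j : Fin m => IsAlgClosed.exists_pow_nat_eq (e j : ℂ) (n := 2) (by norm_num)
  have hzF : ∀ j, z j ∈ F := fun j => by
    rw [hK]
    exact subset_adjoin _ _ ⟨j, hz j⟩
  have hpos : ∀ j, 0 < e j := fun j => (hS _ (he1 j)).1.1
  have hcast : ∀ j, (((e j).natAbs : ℕ) : ℤ) = e j := fun j => Int.natAbs_of_nonneg (hpos j).le
  refine ⟨m, fun j => (e j).natAbs, fun j => ⟨z j, hzF j⟩, fun j => (hS _ (he1 j)).1.2, ?_, ?_, ?_⟩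
  · intro T hT h
    refine he2 T hT ?_
    obtain ⟨a, ha⟩ := h
    refine ⟨(a : ℤ), ?_⟩
    have : ((∏ j ∈ T, (e j).natAbs : ℕ) : ℤ) = ∏ j ∈ T, e j := by
      rw [Nat.cast_prod]
      exact Finset.prod_congr rfl fun j _ => hcast j
    rw [← this, ha]
    push_cast
    rfl
  · intro j
    apply Subtype.ext
    change z j ^ 2 = (((e j).natAbs : ℕ) : ℂ)
    rw [hz j, ← hcast j]
    simp
  · exact gen_top F e hK z hz hzF

end Pool.Agent.H249.TR
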